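import Mathlib

/-!
# The noise recursion (section 4 of UMC_DUAL)

Abstract form: a tree of cells (states `s` of level `k`, alphabet `D`, children indexed by `D` and by
a random parameter `g` with law `γ`), at every step three linear functionals of the noise `W` with
sup norm `≤ C 2^(-k/2)` and `ℓ¹` norm `≤ C 2^(k/2)`; `Z (k+1) s = ∑_e (∫ e^U) (∫ e^U Z k (child))`.
If `E exp ⟨W,F⟩ ≤ exp (c |F|₂²)` for `|F|_∞ ≤ H₀`, then `E Z k s ≤ C₁ ^ k`.

All integrals are lower Lebesgue integrals, so that no measurability is needed.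
-/

open MeasureTheory ENNReal Finset

namespace Pool.Agent.H86.UMC

/-- The truncated discrete Gaussian sum `∑_{|l| ≤ Λ} exp (l ξ - C_v l²)`. -/
noncomputable def zz (Cv : ℝ) (Λ : ℕ) (ξ : ℝ) : ℝ≥0∞ :=
  ∑ l ∈ Icc (-(Λ : ℤ)) Λ, ENNReal.ofReal (Real.exp (l * ξ - Cv * (l : ℝ) ^ 2))

section

variable {Ω Q S D G : Type*} [Fintype Ω] [Fintype Q] [Fintype D] [MeasurableSpace G]

/-- `e^U` for the three functionals `f k s e g 0, 1, 2`. -/
noncomputable def eU (W : Ω → Q → ℝ) (f : ℕ → S → D → G → Fin 3 → Q → ℝ) (Cv : ℝ) (Λ : ℕ)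
    (k : ℕ) (s : S) (e : D) (g : G) (ω : Ω) : ℝ≥0∞ :=
  ∏ c, zz Cv Λ (∑ q, W ω q * f k s e g c q)

/-- The partition function. -/
noncomputable def ZZ (γ : Measure G) (child : S → D → G → S) (W : Ω → Q → ℝ)
    (f : ℕ → S → D → G → Fin 3 → Q → ℝ) (Cv : ℝ) (Λ : ℕ) : ℕ → S → Ω → ℝ≥0∞
  | 0, _, _ => 1
  | k + 1, s, ω => ∑ e, (∫⁻ g, eU W f Cv Λ k s e g ω ∂γ) *
      (∫⁻ g, eU W f Cv Λ k s e g ω * ZZ γ child W f Cv Λ k (child s e g) ω ∂γ)

theorem sum_mul_lintegral_le {α G : Type*} [MeasurableSpace G] (γ : Measure G) (A : Finset α)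
    (a : α → ℝ≥0∞) (h : α → G → ℝ≥0∞) :
    ∑ ω ∈ A, a ω * ∫⁻ g, h ω g ∂γ ≤ ∫⁻ g, ∑ ω ∈ A, a ω * h ω g ∂γ := by
  classical
  induction A using Finset.induction_on with
  | empty => simp
  | insert x A hx ih =>
    simp only [Finset.sum_insert hx]
    refine le_trans (add_le_add (lintegral_const_mul_le (a x) (h x)) ih) ?_
    exact le_lintegral_add _ _

theorem sum_mul_lintegral_mul_lintegral_le {α G : Type*} [MeasurableSpace G] (γ : Measure G)
    (A : Finset α) (a : α → ℝ≥0∞) (h₁ h₂ : α → G → ℝ≥0∞) :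
    ∑ ω ∈ A, a ω * ((∫⁻ g, h₁ ω g ∂γ) * ∫⁻ g, h₂ ω g ∂γ) ≤
      ∫⁻ g, ∫⁻ g', ∑ ω ∈ A, a ω * (h₁ ω g * h₂ ω g') ∂γ ∂γ := by
  calc ∑ ω ∈ A, a ω * ((∫⁻ g, h₁ ω g ∂γ) * ∫⁻ g, h₂ ω g ∂γ)
      = ∑ ω ∈ A, (a ω * ∫⁻ g, h₂ ω g ∂γ) * ∫⁻ g, h₁ ω g ∂γ := by
        refine Finset.sum_congr rfl fun ω _ => ?_
        ring
    _ ≤ ∫⁻ g, ∑ ω ∈ A, (a ω * ∫⁻ g, h₂ ω g ∂γ) * h₁ ω g ∂γ := sum_mul_lintegral_le γ A _ _
    _ ≤ _ := by
        refine lintegral_mono fun g => ?_
        calc ∑ ω ∈ A, (a ω * ∫⁻ g, h₂ ω g ∂γ) * h₁ ω g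
            = ∑ ω ∈ A, (a ω * h₁ ω g) * ∫⁻ g, h₂ ω g ∂γ := by
              refine Finset.sum_congr rfl fun ω _ => ?_
              ring
          _ ≤ ∫⁻ g', ∑ ω ∈ A, (a ω * h₁ ω g) * h₂ ω g' ∂γ := sum_mul_lintegral_le γ A _ _
          _ = _ := by
              refine lintegral_congr fun g' => ?_
              refine Finset.sum_congr rfl fun ω _ => ?_
              ring

/-- `∑_{|l| ≤ Λ} exp (-l²) ≤ 3`. -/
theorem sum_exp_neg_sq_le (Λ : ℕ) :
    ∑ l ∈ Icc (-(Λ : ℤ)) Λ, Real.exp (-(l : ℝ) ^ 2) ≤ 3 := by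
  have key : ∀ Λ : ℕ, ∑ l ∈ Icc (-(Λ : ℤ)) Λ, Real.exp (-(l : ℝ) ^ 2) ≤ 3 - 2 * (1 / 2) ^ Λ := by
    intro Λ
    induction Λ with
    | zero => simp; norm_num
    | succ n ih =>
      have h1 : Icc (-((n + 1 : ℕ) : ℤ)) ((n + 1 : ℕ) : ℤ) =
          insert (-((n + 1 : ℕ) : ℤ)) (insert ((n + 1 : ℕ) : ℤ) (Icc (-(n : ℤ)) n)) := by
        ext x
        simp only [Finset.mem_insert, Finset.mem_Icc]
        push_cast
        omega
      rw [h1, Finset.sum_insert, Finset.sum_insert]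
      · have h2 : Real.exp (-(((n + 1 : ℕ) : ℤ) : ℝ) ^ 2) ≤ (1 / 2) ^ (n + 1) := by
          have h3 : Real.exp (-(((n + 1 : ℕ) : ℤ) : ℝ) ^ 2) ≤ Real.exp (-1) ^ (n + 1) := by
            rw [← Real.exp_nat_mul]
            refine Real.exp_le_exp.2 ?_
            push_cast
            nlinarith [(Nat.cast_nonneg n : (0 : ℝ) ≤ n)]
          refine h3.trans (pow_le_pow_left₀ (Real.exp_pos _).le ?_ _)
          rw [Real.exp_neg, one_div]
          refine inv_anti₀ (by norm_num) ?_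
          have := Real.add_one_le_exp (1 : ℝ)
          linarith
        have h4 : Real.exp (-((-((n + 1 : ℕ) : ℤ) : ℤ) : ℝ) ^ 2) ≤ (1 / 2) ^ (n + 1) := by
          rw [show ((-((n + 1 : ℕ) : ℤ) : ℤ) : ℝ) ^ 2 = (((n + 1 : ℕ) : ℤ) : ℝ) ^ 2 by
            push_cast; ring]
          exact h2
        have h5 : (3 : ℝ) - 2 * (1 / 2) ^ (n + 1) = 3 - 2 * (1 / 2) ^ n + 2 * (1 / 2) ^ (n + 1) := by
          rw [pow_succ]
          ring
        rw [h5]
        linarith
      · simp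
      · simp only [Finset.mem_insert, Finset.mem_Icc]
        push_cast
        omega
  have := key Λ
  have h2 : (0 : ℝ) ≤ 2 * (1 / 2) ^ Λ := by positivity
  linarith

/-- The product of the sums `zz` over a finite index set. -/
theorem prod_zz {ι : Type*} [Fintype ι] [DecidableEq ι] (Cv : ℝ) (Λ : ℕ) (ξ : ι → ℝ) :
    ∏ i, zz Cv Λ (ξ i) = ∑ l ∈ Fintype.piFinset (fun _ : ι => Icc (-(Λ : ℤ)) Λ),
      ENNReal.ofReal (Real.exp (∑ i, ((l i : ℝ) * ξ i - Cv * (l i : ℝ) ^ 2))) := by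
  unfold zz
  rw [Finset.prod_univ_sum]
  refine Finset.sum_congr rfl fun l _ => ?_
  rw [Real.exp_sum, ENNReal.ofReal_prod_of_nonneg]
  intro i _
  exact (Real.exp_pos _).le

/-- The exponent estimate of the induction step. -/
theorem exponent_bound {ι Q : Type*} [Fintype ι] [Fintype Q] (hι : Fintype.card ι ≤ 6)
    {C c Cv H κ κ' : ℝ} (hC : 0 ≤ C) (hc : 0 ≤ c) (hH : 0 ≤ H) (hκ : 0 ≤ κ)
    (hκκ : κ * κ' = 1)
    (hCv : 1 + 36 * c * C ^ 2 ≤ Cv) (F : Q → ℝ) (f : ι → Q → ℝ) (l : ι → ℝ)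
    (hF : ∀ q, |F q| ≤ κ * H) (hf : ∀ i q, |f i q| ≤ C * κ) (hf' : ∀ i, ∑ q, |f i q| ≤ C * κ') :
    c * ∑ q, (F q + ∑ i, l i * f i q) ^ 2 + 2 * c * ((H + C * ∑ i, |l i|) / √2) ^ 2 -
      Cv * ∑ i, l i ^ 2 ≤ c * ∑ q, F q ^ 2 + 2 * c * H ^ 2 - ∑ i, l i ^ 2 := by
  set L : ℝ := ∑ i, |l i| with hL
  have hL0 : 0 ≤ L := Finset.sum_nonneg fun i _ => abs_nonneg _
  have hL2 : L ^ 2 ≤ 6 * ∑ i, l i ^ 2 := by
    have h1 : (∑ i, |l i|) ^ 2 ≤ (Fintype.card ι : ℝ) * ∑ i, |l i| ^ 2 := by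
      have := sq_sum_le_card_mul_sum_sq (s := (Finset.univ : Finset ι)) (f := fun i => |l i|)
      simpa using this
    have h2 : ∑ i, |l i| ^ 2 = ∑ i, l i ^ 2 := by simp [sq_abs]
    rw [h2] at h1
    have h3 : (0 : ℝ) ≤ ∑ i, l i ^ 2 := Finset.sum_nonneg fun i _ => sq_nonneg _
    have h4 : (Fintype.card ι : ℝ) ≤ 6 := by exact_mod_cast hι
    calc L ^ 2 ≤ (Fintype.card ι : ℝ) * ∑ i, l i ^ 2 := h1
      _ ≤ _ := mul_le_mul_of_nonneg_right h4 h3
  -- the cross term
  set g : Q → ℝ := fun q => ∑ i, l i * f i q with hg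
  have hg1 : ∀ q, |g q| ≤ L * (C * κ) := by
    intro q
    calc |g q| ≤ ∑ i, |l i * f i q| := Finset.abs_sum_le_sum_abs _ _
      _ ≤ ∑ i, |l i| * (C * κ) := by
        refine Finset.sum_le_sum fun i _ => ?_
        rw [abs_mul]
        exact mul_le_mul_of_nonneg_left (hf i q) (abs_nonneg _)
      _ = L * (C * κ) := by rw [← Finset.sum_mul]
  have hg2 : ∑ q, |g q| ≤ L * (C * κ') := by
    calc ∑ q, |g q| ≤ ∑ q, ∑ i, |l i| * |f i q| := by
          refine Finset.sum_le_sum fun q _ => ?_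
          refine (Finset.abs_sum_le_sum_abs _ _).trans (le_of_eq ?_)
          exact Finset.sum_congr rfl fun i _ => abs_mul _ _
      _ = ∑ i, |l i| * ∑ q, |f i q| := by
          rw [Finset.sum_comm]
          exact Finset.sum_congr rfl fun i _ => by rw [Finset.mul_sum]
      _ ≤ ∑ i, |l i| * (C * κ') :=
          Finset.sum_le_sum fun i _ => mul_le_mul_of_nonneg_left (hf' i) (abs_nonneg _)
      _ = L * (C * κ') := by rw [← Finset.sum_mul]
  have hcross : ∑ q, F q * g q ≤ C * H * L := by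
    calc ∑ q, F q * g q ≤ ∑ q, (κ * H) * |g q| := by
          refine Finset.sum_le_sum fun q _ => ?_
          calc F q * g q ≤ |F q * g q| := le_abs_self _
            _ = |F q| * |g q| := abs_mul _ _
            _ ≤ (κ * H) * |g q| := mul_le_mul_of_nonneg_right (hF q) (abs_nonneg _)
      _ = (κ * H) * ∑ q, |g q| := by rw [Finset.mul_sum]
      _ ≤ (κ * H) * (L * (C * κ')) := mul_le_mul_of_nonneg_left hg2 (mul_nonneg hκ hH)
      _ = (κ * κ') * (C * H * L) := by ring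
      _ = C * H * L := by rw [hκκ, one_mul]
  have hsq : ∑ q, g q ^ 2 ≤ C ^ 2 * L ^ 2 := by
    calc ∑ q, g q ^ 2 ≤ ∑ q, (L * (C * κ)) * |g q| := by
          refine Finset.sum_le_sum fun q _ => ?_
          rw [← sq_abs, sq]
          exact mul_le_mul_of_nonneg_right (hg1 q) (abs_nonneg _)
      _ = (L * (C * κ)) * ∑ q, |g q| := by rw [Finset.mul_sum]
      _ ≤ (L * (C * κ)) * (L * (C * κ')) :=
          mul_le_mul_of_nonneg_left hg2 (mul_nonneg hL0 (mul_nonneg hC hκ))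
      _ = (κ * κ') * (C ^ 2 * L ^ 2) := by ring
      _ = C ^ 2 * L ^ 2 := by rw [hκκ, one_mul]
  have hexp : ∑ q, (F q + g q) ^ 2 = ∑ q, F q ^ 2 + 2 * ∑ q, F q * g q + ∑ q, g q ^ 2 := by
    rw [Finset.mul_sum, ← Finset.sum_add_distrib, ← Finset.sum_add_distrib]
    exact Finset.sum_congr rfl fun q _ => by ring
  have hdiv : ((H + C * L) / √2) ^ 2 = (H + C * L) ^ 2 / 2 := by
    rw [div_pow, Real.sq_sqrt (by norm_num)]
  have hmain : c * ∑ q, (F q + g q) ^ 2 + 2 * c * ((H + C * L) / √2) ^ 2 ≤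
      c * ∑ q, F q ^ 2 + 2 * c * H ^ 2 + 6 * c * C ^ 2 * L ^ 2 := by
    rw [hexp, hdiv]
    have h1 : c * (∑ q, F q ^ 2 + 2 * ∑ q, F q * g q + ∑ q, g q ^ 2) ≤
        c * (∑ q, F q ^ 2 + 2 * (C * H * L) + C ^ 2 * L ^ 2) :=
      mul_le_mul_of_nonneg_left (by linarith) hc
    have h2 : c * (4 * (C * H * L)) ≤ c * (H ^ 2 + 4 * (C * L) ^ 2) := by
      refine mul_le_mul_of_nonneg_left ?_ hc
      nlinarith [sq_nonneg (H - 2 * (C * L))]
    nlinarith
  have hfin : 6 * c * C ^ 2 * L ^ 2 ≤ (Cv - 1) * ∑ i, l i ^ 2 := by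
    have h3 : (0 : ℝ) ≤ ∑ i, l i ^ 2 := Finset.sum_nonneg fun i _ => sq_nonneg _
    calc 6 * c * C ^ 2 * L ^ 2 ≤ 6 * c * C ^ 2 * (6 * ∑ i, l i ^ 2) :=
          mul_le_mul_of_nonneg_left hL2 (by positivity)
      _ = (36 * c * C ^ 2) * ∑ i, l i ^ 2 := by ring
      _ ≤ _ := mul_le_mul_of_nonneg_right (by linarith) h3
  linarith

/-- **Noise recursion.** -/
theorem noise_rec (γ : Measure G) [IsProbabilityMeasure γ] (child : S → D → G → S)
    (p : Ω → ℝ≥0∞) (W : Ω → Q → ℝ)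
    (f : ℕ → S → D → G → Fin 3 → Q → ℝ) (Cv : ℝ) (Λ : ℕ) (Lv : ℕ → S → Prop)
    {C c H₀ : ℝ} (hC : 0 ≤ C) (hc : 0 ≤ c)
    (hΛ : H₀ + 6 * C * Λ ≤ √2 * H₀) (hCv : 1 + 36 * c * C ^ 2 ≤ Cv)
    (hEXP : ∀ F : Q → ℝ, (∀ q, |F q| ≤ H₀) →
      ∑ ω, p ω * ENNReal.ofReal (Real.exp (∑ q, W ω q * F q)) ≤
        ENNReal.ofReal (Real.exp (c * ∑ q, F q ^ 2)))
    (hchild : ∀ k s, Lv (k + 1) s → ∀ e g, Lv k (child s e g))
    (hsup : ∀ k s, Lv (k + 1) s → ∀ e g i q, |f k s e g i q| ≤ C * (1 / √2) ^ (k + 1))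
    (hone : ∀ k s, Lv (k + 1) s → ∀ e g i, ∑ q, |f k s e g i q| ≤ C * (√2) ^ (k + 1)) :
    ∀ k s (F : Q → ℝ) (H : ℝ), Lv k s → 0 ≤ H → H ≤ H₀ →
      (∀ q, |F q| ≤ (1 / √2) ^ k * H) →
      ∑ ω, p ω * ENNReal.ofReal (Real.exp (∑ q, W ω q * F q)) *
          ZZ γ child W f Cv Λ k s ω ≤
        ENNReal.ofReal (((Fintype.card D : ℝ) * 729) ^ k *
          Real.exp (c * ∑ q, F q ^ 2 + 2 * c * H ^ 2)) := by
  classical
  have hs2 : (0 : ℝ) < √2 := by positivity
  have hs2' : (0 : ℝ) < 1 / √2 := by positivity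
  intro k
  induction k with
  | zero =>
    intro s F H _ hH hH0 hF
    simp only [ZZ, mul_one, pow_zero, one_mul] at hF ⊢
    refine (hEXP F fun q => (hF q).trans hH0).trans ?_
    refine ENNReal.ofReal_le_ofReal (Real.exp_le_exp.2 ?_)
    have : 0 ≤ 2 * c * H ^ 2 := by positivity
    linarith
  | succ k ih =>
    intro s F H hs hH hH0 hF
    -- one pair `(g, g')`
    have hpair : ∀ (e : D) (g g' : G),
        ∑ ω, p ω * ENNReal.ofReal (Real.exp (∑ q, W ω q * F q)) *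
          (eU W f Cv Λ k s e g ω * (eU W f Cv Λ k s e g' ω *
            ZZ γ child W f Cv Λ k (child s e g') ω)) ≤
        ENNReal.ofReal (729 * (((Fintype.card D : ℝ) * 729) ^ k *
          Real.exp (c * ∑ q, F q ^ 2 + 2 * c * H ^ 2))) := by
      intro e g g'
      -- the six functionals
      set fs : Fin 3 ⊕ Fin 3 → Q → ℝ := Sum.elim (f k s e g) (f k s e g') with hfs
      set B : Finset ((Fin 3 ⊕ Fin 3) → ℤ) :=
        Fintype.piFinset (fun _ : Fin 3 ⊕ Fin 3 => Icc (-(Λ : ℤ)) Λ) with hB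
      have hprod : ∀ ω, eU W f Cv Λ k s e g ω * eU W f Cv Λ k s e g' ω =
          ∑ l ∈ B, ENNReal.ofReal (Real.exp (∑ i, ((l i : ℝ) * (∑ q, W ω q * fs i q) -
            Cv * (l i : ℝ) ^ 2))) := by
        intro ω
        rw [← prod_zz Cv Λ (fun i => ∑ q, W ω q * fs i q), Fintype.prod_sum_type]
        rfl
      have hterm : ∀ l ∈ B, ∑ ω, p ω * ENNReal.ofReal (Real.exp (∑ q, W ω q * F q)) *
          (ENNReal.ofReal (Real.exp (∑ i, ((l i : ℝ) * (∑ q, W ω q * fs i q) -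
            Cv * (l i : ℝ) ^ 2))) * ZZ γ child W f Cv Λ k (child s e g') ω) ≤
          ENNReal.ofReal (Real.exp (∑ i, -(l i : ℝ) ^ 2)) *
            ENNReal.ofReal (((Fintype.card D : ℝ) * 729) ^ k *
              Real.exp (c * ∑ q, F q ^ 2 + 2 * c * H ^ 2)) := by
        intro l hl
        set F' : Q → ℝ := fun q => F q + ∑ i, (l i : ℝ) * fs i q with hF'
        set L : ℝ := ∑ i, |(l i : ℝ)| with hL
        have hL0 : 0 ≤ L := Finset.sum_nonneg fun i _ => abs_nonneg _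
        have hL6 : L ≤ 6 * Λ := by
          have : ∀ i ∈ (Finset.univ : Finset (Fin 3 ⊕ Fin 3)), |(l i : ℝ)| ≤ Λ := by
            intro i _
            have h1 := Fintype.mem_piFinset.1 hl i
            rw [Finset.mem_Icc] at h1
            rw [abs_le]
            constructor
            · have := h1.1
              exact_mod_cast this
            · exact_mod_cast h1.2
          have h2 := Finset.sum_le_card_nsmul _ _ _ this
          rw [hL]
          refine h2.trans (le_of_eq ?_)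
          simp
        have hsupf : ∀ i q, |fs i q| ≤ C * (1 / √2) ^ (k + 1) := by
          intro i q
          rcases i with i | i
          · exact hsup k s hs e g i q
          · exact hsup k s hs e g' i q
        have honef : ∀ i, ∑ q, |fs i q| ≤ C * (√2) ^ (k + 1) := by
          intro i
          rcases i with i | i
          · exact hone k s hs e g i
          · exact hone k s hs e g' i
        have hF'b : ∀ q, |F' q| ≤ (1 / √2) ^ k * ((H + C * L) / √2) := by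
          intro q
          calc |F' q| ≤ |F q| + |∑ i, (l i : ℝ) * fs i q| := abs_add_le _ _
            _ ≤ (1 / √2) ^ (k + 1) * H + ∑ i, |(l i : ℝ)| * (C * (1 / √2) ^ (k + 1)) := by
              refine add_le_add (hF q) ((Finset.abs_sum_le_sum_abs _ _).trans ?_)
              refine Finset.sum_le_sum fun i _ => ?_
              rw [abs_mul]
              exact mul_le_mul_of_nonneg_left (hsupf i q) (abs_nonneg _)
            _ = (1 / √2) ^ k * ((H + C * L) / √2) := by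
              rw [← Finset.sum_mul, ← hL]
              ring
        have hH'0 : 0 ≤ (H + C * L) / √2 := by positivity
        have hH'1 : (H + C * L) / √2 ≤ H₀ := by
          rw [div_le_iff₀ hs2]
          have : C * L ≤ C * (6 * Λ) := mul_le_mul_of_nonneg_left hL6 hC
          nlinarith
        have hih := ih (child s e g') F' ((H + C * L) / √2) (hchild k s hs e g') hH'0 hH'1 hF'b
        have hrew : ∀ ω, p ω * ENNReal.ofReal (Real.exp (∑ q, W ω q * F q)) *
          (ENNReal.ofReal (Real.exp (∑ i, ((l i : ℝ) * (∑ q, W ω q * fs i q) -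
            Cv * (l i : ℝ) ^ 2))) * ZZ γ child W f Cv Λ k (child s e g') ω) =
            ENNReal.ofReal (Real.exp (-(Cv * ∑ i, (l i : ℝ) ^ 2))) *
              (p ω * ENNReal.ofReal (Real.exp (∑ q, W ω q * F' q)) *
                ZZ γ child W f Cv Λ k (child s e g') ω) := by
          intro ω
          have h1 : ENNReal.ofReal (Real.exp (∑ q, W ω q * F q)) *
              ENNReal.ofReal (Real.exp (∑ i, ((l i : ℝ) * (∑ q, W ω q * fs i q) -
                Cv * (l i : ℝ) ^ 2))) =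
              ENNReal.ofReal (Real.exp (-(Cv * ∑ i, (l i : ℝ) ^ 2))) *
                ENNReal.ofReal (Real.exp (∑ q, W ω q * F' q)) := by
            rw [← ENNReal.ofReal_mul (Real.exp_pos _).le, ← ENNReal.ofReal_mul (Real.exp_pos _).le,
              ← Real.exp_add, ← Real.exp_add]
            congr 2
            have h2 : ∑ q, W ω q * F' q = ∑ q, W ω q * F q +
                ∑ i, (l i : ℝ) * ∑ q, W ω q * fs i q := by
              rw [hF']
              simp only [mul_add, Finset.mul_sum]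
              rw [Finset.sum_add_distrib]
              congr 1
              rw [Finset.sum_comm]
              refine Finset.sum_congr rfl fun i _ => Finset.sum_congr rfl fun q _ => ?_
              ring
            rw [h2, Finset.sum_sub_distrib, ← Finset.mul_sum]
            ring
          calc _ = p ω * (ENNReal.ofReal (Real.exp (∑ q, W ω q * F q)) *
              ENNReal.ofReal (Real.exp (∑ i, ((l i : ℝ) * (∑ q, W ω q * fs i q) -
                Cv * (l i : ℝ) ^ 2)))) * ZZ γ child W f Cv Λ k (child s e g') ω := by ring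
            _ = _ := by
              rw [h1]
              ring
        rw [Finset.sum_congr rfl fun ω _ => hrew ω, ← Finset.mul_sum]
        refine (mul_le_mul' le_rfl hih).trans ?_
        rw [← ENNReal.ofReal_mul (Real.exp_pos _).le, ← ENNReal.ofReal_mul (Real.exp_pos _).le]
        refine ENNReal.ofReal_le_ofReal ?_
        have hb := exponent_bound (ι := Fin 3 ⊕ Fin 3) (Q := Q) (by simp) hC hc hH
          (κ := (1 / √2) ^ (k + 1)) (κ' := (√2) ^ (k + 1)) (by positivity)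
          (by rw [← mul_pow, one_div_mul_cancel hs2.ne', one_pow]) hCv F fs (fun i => (l i : ℝ))
          hF hsupf honef
        have hpos : (0 : ℝ) ≤ ((Fintype.card D : ℝ) * 729) ^ k := by positivity
        calc Real.exp (-(Cv * ∑ i, (l i : ℝ) ^ 2)) * (((Fintype.card D : ℝ) * 729) ^ k *
              Real.exp (c * ∑ q, F' q ^ 2 + 2 * c * ((H + C * L) / √2) ^ 2))
            = ((Fintype.card D : ℝ) * 729) ^ k * Real.exp (c * ∑ q, F' q ^ 2 +
              2 * c * ((H + C * L) / √2) ^ 2 - Cv * ∑ i, (l i : ℝ) ^ 2) := by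
              rw [sub_eq_add_neg, Real.exp_add _ (-(Cv * ∑ i, (l i : ℝ) ^ 2))]
              ring
          _ ≤ ((Fintype.card D : ℝ) * 729) ^ k * Real.exp (c * ∑ q, F q ^ 2 + 2 * c * H ^ 2 -
              ∑ i, (l i : ℝ) ^ 2) :=
              mul_le_mul_of_nonneg_left (Real.exp_le_exp.2 hb) hpos
          _ = Real.exp (∑ i, -(l i : ℝ) ^ 2) * (((Fintype.card D : ℝ) * 729) ^ k *
              Real.exp (c * ∑ q, F q ^ 2 + 2 * c * H ^ 2)) := by
              rw [sub_eq_add_neg, Real.exp_add _ (-(∑ i, (l i : ℝ) ^ 2)), Finset.sum_neg_distrib]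
              ring
      have hsum : ∑ l ∈ B, ENNReal.ofReal (Real.exp (∑ i, -(l i : ℝ) ^ 2)) ≤
          ENNReal.ofReal 729 := by
        have h1 : ∑ l ∈ B, Real.exp (∑ i, -(l i : ℝ) ^ 2) =
            (∑ l ∈ Icc (-(Λ : ℤ)) Λ, Real.exp (-(l : ℝ) ^ 2)) ^ 6 := by
          have h2 := (Finset.prod_univ_sum (fun _ : Fin 3 ⊕ Fin 3 => Icc (-(Λ : ℤ)) Λ)
            (fun _ (x : ℤ) => Real.exp (-(x : ℝ) ^ 2))).symm
          rw [Finset.prod_const, Finset.card_univ, Fintype.card_sum, Fintype.card_fin] at h2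
          rw [← h2]
          refine Finset.sum_congr rfl fun l _ => ?_
          rw [Real.exp_sum]
        rw [← ENNReal.ofReal_sum_of_nonneg fun l _ => (Real.exp_pos _).le, h1]
        refine ENNReal.ofReal_le_ofReal ?_
        have h3 := sum_exp_neg_sq_le Λ
        have h4 : 0 ≤ ∑ l ∈ Icc (-(Λ : ℤ)) Λ, Real.exp (-(l : ℝ) ^ 2) :=
          Finset.sum_nonneg fun l _ => (Real.exp_pos _).le
        calc (∑ l ∈ Icc (-(Λ : ℤ)) Λ, Real.exp (-(l : ℝ) ^ 2)) ^ 6 ≤ 3 ^ 6 :=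
              pow_le_pow_left₀ h4 h3 6
          _ = 729 := by norm_num
      calc ∑ ω, p ω * ENNReal.ofReal (Real.exp (∑ q, W ω q * F q)) *
          (eU W f Cv Λ k s e g ω * (eU W f Cv Λ k s e g' ω *
            ZZ γ child W f Cv Λ k (child s e g') ω))
          = ∑ l ∈ B, ∑ ω, p ω * ENNReal.ofReal (Real.exp (∑ q, W ω q * F q)) *
          (ENNReal.ofReal (Real.exp (∑ i, ((l i : ℝ) * (∑ q, W ω q * fs i q) -
            Cv * (l i : ℝ) ^ 2))) * ZZ γ child W f Cv Λ k (child s e g') ω) := by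
            rw [Finset.sum_comm]
            refine Finset.sum_congr rfl fun ω _ => ?_
            rw [← mul_assoc (eU W f Cv Λ k s e g ω), hprod ω, Finset.sum_mul, Finset.mul_sum]
        _ ≤ ∑ l ∈ B, ENNReal.ofReal (Real.exp (∑ i, -(l i : ℝ) ^ 2)) *
            ENNReal.ofReal (((Fintype.card D : ℝ) * 729) ^ k *
              Real.exp (c * ∑ q, F q ^ 2 + 2 * c * H ^ 2)) := Finset.sum_le_sum hterm
        _ ≤ ENNReal.ofReal 729 * ENNReal.ofReal (((Fintype.card D : ℝ) * 729) ^ k *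
              Real.exp (c * ∑ q, F q ^ 2 + 2 * c * H ^ 2)) := by
            rw [← Finset.sum_mul]
            exact mul_le_mul' hsum le_rfl
        _ = _ := by rw [← ENNReal.ofReal_mul (by norm_num)]
    -- sum over the alphabet
    calc ∑ ω, p ω * ENNReal.ofReal (Real.exp (∑ q, W ω q * F q)) *
          ZZ γ child W f Cv Λ (k + 1) s ω
        = ∑ e, ∑ ω, p ω * ENNReal.ofReal (Real.exp (∑ q, W ω q * F q)) *
          ((∫⁻ g, eU W f Cv Λ k s e g ω ∂γ) *
            (∫⁻ g, eU W f Cv Λ k s e g ω * ZZ γ child W f Cv Λ k (child s e g) ω ∂γ)) := by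
          rw [Finset.sum_comm]
          refine Finset.sum_congr rfl fun ω _ => ?_
          rw [ZZ, Finset.mul_sum]
      _ ≤ ∑ e : D, ENNReal.ofReal (729 * (((Fintype.card D : ℝ) * 729) ^ k *
          Real.exp (c * ∑ q, F q ^ 2 + 2 * c * H ^ 2))) := by
          refine Finset.sum_le_sum fun e _ => ?_
          refine (sum_mul_lintegral_mul_lintegral_le γ Finset.univ _ _ _).trans ?_
          refine (lintegral_mono fun g => (lintegral_mono fun g' => hpair e g g')).trans ?_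
          simp
      _ = _ := by
          rw [Finset.sum_const, Finset.card_univ, nsmul_eq_mul,
            ← ENNReal.ofReal_natCast, ← ENNReal.ofReal_mul (by positivity)]
          congr 1
          rw [pow_succ]
          ring

end

end Pool.Agent.H86.UMC
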