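import Pool.Agent.H37.UMD.Stmts
import Pool.Agent.H86.UMC.NoiseRec

/-!
The noise recursion for the partition function `Zk` of the Gaussian cells.
-/

set_option autoImplicit false
set_option linter.unusedSectionVars false

open MeasureTheory ProbabilityTheory ENNReal

namespace Pool.UMD

/-- The step function `∑ q, w q • 1_{E q}`. -/
noncomputable def stepFn {Q : Type} [Fintype Q] (E : Q → Set (ℝ × ℝ)) (w : Q → ℝ) (x : ℝ × ℝ) : ℝ :=
  ∑ q, w q * (E q).indicator (fun _ => (1 : ℝ)) x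

/-- The indicator function of `E q`. -/
noncomputable def indFn {Q : Type} (E : Q → Set (ℝ × ℝ)) (q : Q) (x : ℝ × ℝ) : ℝ :=
  (E q).indicator (fun _ => (1 : ℝ)) x

/-- The `i`-th noise functional of a step. -/
noncomputable def xiI (W : ℝ × ℝ → ℝ) (a : ℝ × ℝ) (A : Mat) (e : ℝ × ℝ) (g : ℝ) : Fin 3 → ℝ :=
  ![xi0 W a A e g, xi1 W a A e g, xi2 W a A e g]

section

variable {Q : Type} [Fintype Q] (E : Q → Set (ℝ × ℝ))

theorem NOI_indFn_bd (hE : ∀ q, MeasurableSet (E q)) (q : Q) : Bd (indFn E q) 1 := by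
  refine ⟨measurable_const.indicator (hE q), fun x => ?_⟩
  unfold indFn
  by_cases h : x ∈ E q
  · simp [h]
  · simp [h]

theorem NOI_stepFn_bd (hE : ∀ q, MeasurableSet (E q)) (w : Q → ℝ) :
    Bd (stepFn E w) (∑ q, |w q|) := by
  constructor
  · unfold stepFn
    exact Finset.measurable_sum _ fun q _ => (NOI_indFn_bd E hE q).1.const_mul _
  · intro x
    unfold stepFn
    refine (Finset.abs_sum_le_sum_abs _ _).trans (Finset.sum_le_sum fun q _ => ?_)
    rw [abs_mul]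
    have := (NOI_indFn_bd E hE q).2 x
    unfold indFn at this
    calc |w q| * |(E q).indicator (fun _ => (1 : ℝ)) x| ≤ |w q| * 1 :=
          mul_le_mul_of_nonneg_left this (abs_nonneg _)
      _ = |w q| := mul_one _

theorem NOI_meas_ap (a : ℝ × ℝ) (A : Mat) : Measurable (fun z : ℝ × ℝ => a + A.ap z) := by
  unfold Mat.ap
  fun_prop

theorem NOI_integrable_of_bdd {X : Type*} [MeasurableSpace X] (ν : Measure X) [IsFiniteMeasure ν]
    (f : X → ℝ) (hf : Measurable f) (B : ℝ) (hB : ∀ x, |f x| ≤ B) : Integrable f ν :=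
  Integrable.of_bound hf.aestronglyMeasurable B (Filter.Eventually.of_forall fun x => by
    rw [Real.norm_eq_abs]; exact hB x)

theorem NOI_mu_step (hE : ∀ q, MeasurableSet (E q)) (w : Q → ℝ) (a : ℝ × ℝ) (A : Mat) :
    mu (stepFn E w) a A = ∑ q, w q * mu (indFn E q) a A := by
  unfold mu stepFn
  rw [integral_finsetSum]
  · exact Finset.sum_congr rfl fun q _ => integral_const_mul _ _
  · intro q _
    refine Integrable.const_mul ?_ _
    exact NOI_integrable_of_bdd g2 _ ((NOI_indFn_bd E hE q).1.comp (NOI_meas_ap a A)) 1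
      fun z => (NOI_indFn_bd E hE q).2 _

theorem NOI_int_fst : Integrable (fun z : ℝ × ℝ => z.1) g2 := by
  have h : Integrable (fun x : ℝ => x) g1 := by
    have := memLp_id_gaussianReal (μ := 0) (v := 1) 1
    exact this.integrable le_rfl
  exact h.comp_fst g1

theorem NOI_int_snd : Integrable (fun z : ℝ × ℝ => z.2) g2 := by
  have h : Integrable (fun x : ℝ => x) g1 := by
    have := memLp_id_gaussianReal (μ := 0) (v := 1) 1
    exact this.integrable le_rfl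
  exact h.comp_snd g1

theorem NOI_mz1_step (hE : ∀ q, MeasurableSet (E q)) (w : Q → ℝ) (a : ℝ × ℝ) (A : Mat) :
    (mz (stepFn E w) a A).1 = ∑ q, w q * (mz (indFn E q) a A).1 := by
  unfold mz stepFn
  simp only
  have h1 : ∀ z : ℝ × ℝ, z.1 * ∑ q, w q * (E q).indicator (fun _ => (1 : ℝ)) (a + A.ap z) =
      ∑ q, w q * (z.1 * indFn E q (a + A.ap z)) := by
    intro z
    rw [Finset.mul_sum]
    exact Finset.sum_congr rfl fun q _ => by unfold indFn; ring
  simp_rw [h1]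
  rw [integral_finsetSum]
  · exact Finset.sum_congr rfl fun q _ => integral_const_mul _ _
  · intro q _
    refine Integrable.const_mul ?_ _
    refine NOI_int_fst.mul_bdd (c := 1) ((NOI_indFn_bd E hE q).1.comp
      (NOI_meas_ap a A)).aestronglyMeasurable (Filter.Eventually.of_forall fun z => ?_)
    rw [Real.norm_eq_abs]
    exact (NOI_indFn_bd E hE q).2 _

theorem NOI_mz2_step (hE : ∀ q, MeasurableSet (E q)) (w : Q → ℝ) (a : ℝ × ℝ) (A : Mat) :
    (mz (stepFn E w) a A).2 = ∑ q, w q * (mz (indFn E q) a A).2 := by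
  unfold mz stepFn
  simp only
  have h1 : ∀ z : ℝ × ℝ, z.2 * ∑ q, w q * (E q).indicator (fun _ => (1 : ℝ)) (a + A.ap z) =
      ∑ q, w q * (z.2 * indFn E q (a + A.ap z)) := by
    intro z
    rw [Finset.mul_sum]
    exact Finset.sum_congr rfl fun q _ => by unfold indFn; ring
  simp_rw [h1]
  rw [integral_finsetSum]
  · exact Finset.sum_congr rfl fun q _ => integral_const_mul _ _
  · intro q _
    refine Integrable.const_mul ?_ _
    refine NOI_int_snd.mul_bdd (c := 1) ((NOI_indFn_bd E hE q).1.comp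
      (NOI_meas_ap a A)).aestronglyMeasurable (Filter.Eventually.of_forall fun z => ?_)
    rw [Real.norm_eq_abs]
    exact (NOI_indFn_bd E hE q).2 _

theorem NOI_stk_sum (u : Q → ℝ → ℝ) (w : Q → ℝ) (B : ℝ) (hu : ∀ q, Measurable (u q))
    (hB : ∀ q t, |u q t| ≤ B) (g : ℝ) :
    stk (fun t => ∑ q, w q * u q t) g = ∑ q, w q * stk (u q) g := by
  have hint : ∀ q, Integrable (u q) g1 := fun q => NOI_integrable_of_bdd g1 _ (hu q) B (hB q)
  have h1 : ∫ s, ∑ q, w q * u q s ∂g1 = ∑ q, w q * ∫ s, u q s ∂g1 := by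
    rw [integral_finsetSum _ fun q _ => (hint q).const_mul _]
    exact Finset.sum_congr rfl fun q _ => integral_const_mul _ _
  have h2 : ∀ t, (∑ q, w q * u q t) - ∑ q, w q * ∫ s, u q s ∂g1 =
      ∑ q, w q * (u q t - ∫ s, u q s ∂g1) := by
    intro t
    rw [← Finset.sum_sub_distrib]
    exact Finset.sum_congr rfl fun q _ => by ring
  have h3 : ∀ S : Set ℝ, ∫ t in S, ((∑ q, w q * u q t) - ∫ s, ∑ q, w q * u q s ∂g1) ∂g1 =
      ∑ q, w q * ∫ t in S, (u q t - ∫ s, u q s ∂g1) ∂g1 := by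
    intro S
    have hi2 : ∀ q ∈ (Finset.univ : Finset Q), Integrable
        (fun t => w q * (u q t - ∫ s, u q s ∂g1)) (g1.restrict S) := by
      intro q _
      exact (((hint q).sub (integrable_const (∫ s, u q s ∂g1))).const_mul (w q)).integrableOn
    rw [h1]
    simp_rw [h2]
    rw [integral_finsetSum _ hi2]
    exact Finset.sum_congr rfl fun q _ => integral_const_mul _ _
  unfold stk
  split_ifs with hg
  · rw [h3, Finset.sum_div]
    exact Finset.sum_congr rfl fun q _ => mul_div_assoc _ _ _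
  · rw [h3, Finset.sum_div, ← Finset.sum_neg_distrib]
    exact Finset.sum_congr rfl fun q _ => by rw [mul_neg, mul_div_assoc]

theorem NOI_xi_step (hMmu : SMmu) (hE : ∀ q, MeasurableSet (E q)) (w : Q → ℝ) (a : ℝ × ℝ)
    (A : Mat) (e : ℝ × ℝ) (g : ℝ) (i : Fin 3) :
    xiI (stepFn E w) a A e g i = ∑ q, w q * xiI (indFn E q) a A e g i := by
  have hm : ∀ q, Measurable (fun t : ℝ => mu (indFn E q) (a + t • A.stp e) (A.con e)) := by
    intro q
    have h1 := (hMmu (indFn E q) 1 (NOI_indFn_bd E hE q) (A.con e)).1.1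
    exact h1.comp (by fun_prop)
  have hb : ∀ (q : Q) (t : ℝ), |mu (indFn E q) (a + t • A.stp e) (A.con e)| ≤ 1 := fun q t =>
    (hMmu (indFn E q) 1 (NOI_indFn_bd E hE q) (A.con e)).1.2 _
  fin_cases i
  · change xi0 (stepFn E w) a A e g = ∑ q, w q * xi0 (indFn E q) a A e g
    unfold xi0
    have h1 : (fun t : ℝ => mu (stepFn E w) (a + t • A.stp e) (A.con e)) =
        fun t : ℝ => ∑ q, w q * mu (indFn E q) (a + t • A.stp e) (A.con e) := by
      funext t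
      exact NOI_mu_step E hE w _ _
    rw [h1, NOI_stk_sum (fun (q : Q) (t : ℝ) => mu (indFn E q) (a + t • A.stp e) (A.con e)) w 1
      hm hb, Finset.mul_sum]
    exact Finset.sum_congr rfl fun q _ => by ring
  · change xi1 (stepFn E w) a A e g = ∑ q, w q * xi1 (indFn E q) a A e g
    unfold xi1
    rw [NOI_mz1_step E hE w, Finset.mul_sum]
    exact Finset.sum_congr rfl fun q _ => by ring
  · change xi2 (stepFn E w) a A e g = ∑ q, w q * xi2 (indFn E q) a A e g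
    unfold xi2
    rw [NOI_mz2_step E hE w, Finset.mul_sum]
    exact Finset.sum_congr rfl fun q _ => by ring

theorem NOI_zz (Λ : ℕ) (Cv ξ : ℝ) :
    Pool.Agent.H86.UMC.zz Cv Λ ξ = ENNReal.ofReal (ZZ Λ Cv ξ) := by
  unfold Pool.Agent.H86.UMC.zz ZZ
  rw [ENNReal.ofReal_sum_of_nonneg fun l _ => (Real.exp_pos _).le]

theorem NOI_ZZ_nonneg (Λ : ℕ) (Cv ξ : ℝ) : 0 ≤ ZZ Λ Cv ξ :=
  Finset.sum_nonneg fun _ _ => (Real.exp_pos _).le

theorem NOI_eU {Ω : Type} (hMmu : SMmu) (hE : ∀ q, MeasurableSet (E q)) (Λ : ℕ)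
    (Cv : ℝ) (D : Finset (ℝ × ℝ)) (w : Ω → Q → ℝ) (ω : Ω) (k : ℕ) (a : ℝ × ℝ) (A : Mat)
    (e : {e // e ∈ D}) (g : ℝ) :
    Pool.Agent.H86.UMC.eU w (fun _ (s : (ℝ × ℝ) × Mat) (e : {e // e ∈ D}) g i q =>
      xiI (indFn E q) s.1 s.2 e g i) Cv Λ k (a, A) e g ω =
      ENNReal.ofReal (eU Λ Cv (stepFn E (w ω)) a A e g) := by
  unfold Pool.Agent.H86.UMC.eU
  simp only
  have h1 : ∀ i : Fin 3, Pool.Agent.H86.UMC.zz Cv Λ
      (∑ q, w ω q * xiI (indFn E q) a A (e : ℝ × ℝ) g i) =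
      ENNReal.ofReal (ZZ Λ Cv (xiI (stepFn E (w ω)) a A e g i)) := by
    intro i
    rw [NOI_zz, NOI_xi_step E hMmu hE]
  rw [Finset.prod_congr rfl fun i _ => h1 i, ← ENNReal.ofReal_prod_of_nonneg
    fun i _ => NOI_ZZ_nonneg _ _ _, Fin.prod_univ_three]
  rfl

/-- The adapter between the two forms of the partition function. -/
theorem NOI_Zk {Ω : Type} (hMmu : SMmu) (hMeu : SMeu) (hMzk : SMzk)
    (hE : ∀ q, MeasurableSet (E q)) (Λ : ℕ) (Cv : ℝ) (hCv : 0 ≤ Cv) (D : Finset (ℝ × ℝ))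
    (hD : D.Nonempty) (w : Ω → Q → ℝ) (ω : Ω) :
    ∀ (k : ℕ) (a : ℝ × ℝ) (A : Mat),
    Pool.Agent.H86.UMC.ZZ g1 (fun (s : (ℝ × ℝ) × Mat) (e : {e // e ∈ D}) (g : ℝ) =>
        (s.1 + g • s.2.stp e, s.2.con e)) w
      (fun _ (s : (ℝ × ℝ) × Mat) (e : {e // e ∈ D}) g i q =>
        xiI (indFn E q) s.1 s.2 e g i) Cv Λ k (a, A) ω =
      ENNReal.ofReal (Zk D Λ Cv (stepFn E (w ω)) k a A) := by
  intro k
  induction k with
  | zero =>
    intro a A
    simp [Pool.Agent.H86.UMC.ZZ, Zk]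
  | succ k ih =>
    intro a A
    have hbd := NOI_stepFn_bd E hE (w ω)
    have hU : ∀ e : ℝ × ℝ, Measurable (fun g : ℝ => eU Λ Cv (stepFn E (w ω)) a A e g) ∧
        ∃ C : ℝ, ∀ g, 1 ≤ eU Λ Cv (stepFn E (w ω)) a A e g ∧
          eU Λ Cv (stepFn E (w ω)) a A e g ≤ C := by
      intro e
      obtain ⟨h1, C, hC⟩ := hMeu (stepFn E (w ω)) _ hbd A e Λ Cv hCv
      have h2 : Measurable (fun g : ℝ => ((a, g) : (ℝ × ℝ) × ℝ)) :=
        measurable_const.prodMk measurable_id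
      have h3 := h1.comp h2
      exact ⟨h3, C, fun g => hC a g⟩
    have hZ : ∀ e : ℝ × ℝ, Measurable (fun g : ℝ => Zk D Λ Cv (stepFn E (w ω)) k
        (a + g • A.stp e) (A.con e)) ∧ ∃ C : ℝ, ∀ g : ℝ,
        1 ≤ Zk D Λ Cv (stepFn E (w ω)) k (a + g • A.stp e) (A.con e) ∧
        Zk D Λ Cv (stepFn E (w ω)) k (a + g • A.stp e) (A.con e) ≤ C := by
      intro e
      obtain ⟨h1, C, hC⟩ := hMzk (stepFn E (w ω)) _ hbd D hD Λ Cv hCv k (A.con e)
      have h2 : Measurable (fun g : ℝ => a + g • A.stp e) := by fun_prop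
      have h3 := h1.comp h2
      exact ⟨h3, C, fun g => hC _⟩
    have hUn : ∀ e g, 0 ≤ eU Λ Cv (stepFn E (w ω)) a A e g := by
      intro e g
      obtain ⟨C, hC⟩ := (hU e).2
      linarith [(hC g).1]
    have hZn : ∀ e : ℝ × ℝ, ∀ g : ℝ,
        0 ≤ Zk D Λ Cv (stepFn E (w ω)) k (a + g • A.stp e) (A.con e) := by
      intro e g
      obtain ⟨C, hC⟩ := (hZ e).2
      linarith [(hC g).1]
    have hI1 : ∀ e : ℝ × ℝ, ENNReal.ofReal (∫ g, eU Λ Cv (stepFn E (w ω)) a A e g ∂g1) =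
        ∫⁻ g, ENNReal.ofReal (eU Λ Cv (stepFn E (w ω)) a A e g) ∂g1 := by
      intro e
      obtain ⟨C, hC⟩ := (hU e).2
      refine ofReal_integral_eq_lintegral_ofReal ?_ (Filter.Eventually.of_forall fun g => hUn e g)
      refine NOI_integrable_of_bdd g1 _ (hU e).1 C fun g => ?_
      rw [abs_of_nonneg (hUn e g)]
      exact (hC g).2
    have hI2 : ∀ e : ℝ × ℝ, ENNReal.ofReal (∫ g, eU Λ Cv (stepFn E (w ω)) a A e g *
        Zk D Λ Cv (stepFn E (w ω)) k (a + g • A.stp e) (A.con e) ∂g1) =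
        ∫⁻ g, ENNReal.ofReal (eU Λ Cv (stepFn E (w ω)) a A e g) *
          ENNReal.ofReal (Zk D Λ Cv (stepFn E (w ω)) k (a + g • A.stp e) (A.con e)) ∂g1 := by
      intro e
      obtain ⟨C, hC⟩ := (hU e).2
      obtain ⟨C', hC'⟩ := (hZ e).2
      rw [ofReal_integral_eq_lintegral_ofReal ?_ (Filter.Eventually.of_forall fun g =>
        mul_nonneg (hUn e g) (hZn e g))]
      · refine lintegral_congr fun g => ?_
        rw [ENNReal.ofReal_mul (hUn e g)]
      · refine NOI_integrable_of_bdd g1 _ ((hU e).1.mul (hZ e).1) (C * C') fun g => ?_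
        rw [abs_of_nonneg (mul_nonneg (hUn e g) (hZn e g))]
        exact mul_le_mul (hC g).2 (hC' g).2 (hZn e g) ((hUn e g).trans (hC g).2)
    rw [Pool.Agent.H86.UMC.ZZ, Zk, ENNReal.ofReal_sum_of_nonneg]
    · rw [← Finset.sum_attach D, Finset.univ_eq_attach]
      refine Finset.sum_congr rfl fun e _ => ?_
      rw [ENNReal.ofReal_mul (integral_nonneg fun g => hUn e g), hI1, hI2]
      congr 1
      · exact lintegral_congr fun g => NOI_eU E hMmu hE Λ Cv D w ω k a A e g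
      · refine lintegral_congr fun g => ?_
        rw [NOI_eU E hMmu hE Λ Cv D w ω k a A e g]
        simp only
        rw [ih]
    · intro e _
      exact mul_nonneg (integral_nonneg fun g => hUn e g)
        (integral_nonneg fun g => mul_nonneg (hUn e g) (hZn e g))

/-- **NOI**: the expectation of the partition function. -/
theorem NOI_main {Ω : Type} [Fintype Ω] (hMmu : SMmu) (hMeu : SMeu) (hMzk : SMzk)
    (hE : ∀ q, MeasurableSet (E q)) (Λ : ℕ) (Cv : ℝ) (D : Finset (ℝ × ℝ))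
    (hD : D.Nonempty) (p : Ω → ℝ) (hp : ∀ ω, 0 ≤ p ω) (w : Ω → Q → ℝ) (Lv : ℕ → Mat → Prop)
    {C c H₀ : ℝ} (hC : 0 ≤ C) (hc : 0 ≤ c) (hH₀ : 0 ≤ H₀)
    (hΛ : H₀ + 6 * C * Λ ≤ √2 * H₀) (hCv : 1 + 36 * c * C ^ 2 ≤ Cv)
    (hEXP : ∀ F : Q → ℝ, (∀ q, |F q| ≤ H₀) →
      ∑ ω, p ω * Real.exp (∑ q, w ω q * F q) ≤ Real.exp (c * ∑ q, F q ^ 2))
    (hchild : ∀ k A, Lv (k + 1) A → ∀ e ∈ D, Lv k (A.con e))
    (hsup : ∀ k A, Lv (k + 1) A → ∀ e ∈ D, ∀ (a : ℝ × ℝ) (g : ℝ) (i : Fin 3) (q : Q),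
      |xiI (indFn E q) a A e g i| ≤ C * (1 / √2) ^ (k + 1))
    (hone : ∀ k A, Lv (k + 1) A → ∀ e ∈ D, ∀ (a : ℝ × ℝ) (g : ℝ) (i : Fin 3),
      ∑ q, |xiI (indFn E q) a A e g i| ≤ C * (√2) ^ (k + 1)) :
    ∀ (k : ℕ) (a : ℝ × ℝ) (A : Mat), Lv k A →
      ∑ ω, p ω * Zk D Λ Cv (stepFn E (w ω)) k a A ≤ ((D.card : ℝ) * 729) ^ k := by
  intro k a A hA
  have hCv0 : 0 ≤ Cv := by
    have : 0 ≤ 36 * c * C ^ 2 := by positivity
    linarith
  have hZn : ∀ ω, 0 ≤ Zk D Λ Cv (stepFn E (w ω)) k a A := by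
    intro ω
    obtain ⟨_, B, hB⟩ := hMzk (stepFn E (w ω)) _ (NOI_stepFn_bd E hE (w ω)) D hD Λ Cv hCv0 k A
    linarith [(hB a).1]
  have hrec := Pool.Agent.H86.UMC.noise_rec (Ω := Ω) (Q := Q) (S := (ℝ × ℝ) × Mat)
    (D := {e // e ∈ D}) g1 (fun s e g => (s.1 + g • s.2.stp e, s.2.con e))
    (fun ω => ENNReal.ofReal (p ω)) w
    (fun _ s e g i q => xiI (indFn E q) s.1 s.2 e g i) Cv Λ (fun k s => Lv k s.2) hC hc hΛ hCv
    (by
      intro F hF
      have h1 := hEXP F hF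
      rw [Finset.sum_congr rfl fun ω _ => (ENNReal.ofReal_mul (hp ω)).symm,
        ← ENNReal.ofReal_sum_of_nonneg fun ω _ => mul_nonneg (hp ω) (Real.exp_pos _).le]
      exact ENNReal.ofReal_le_ofReal h1)
    (fun k s hs e g => hchild k s.2 hs e e.2)
    (fun k s hs e g i q => hsup k s.2 hs e e.2 s.1 g i q)
    (fun k s hs e g i => hone k s.2 hs e e.2 s.1 g i)
    k (a, A) (fun _ => 0) 0 hA le_rfl hH₀ (fun q => by simp)
  have h2 : ∑ ω, ENNReal.ofReal (p ω) * ENNReal.ofReal (Real.exp (∑ q, w ω q * (0 : ℝ))) *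
      Pool.Agent.H86.UMC.ZZ g1 (fun (s : (ℝ × ℝ) × Mat) (e : {e // e ∈ D}) (g : ℝ) =>
        (s.1 + g • s.2.stp e, s.2.con e)) w
      (fun _ (s : (ℝ × ℝ) × Mat) (e : {e // e ∈ D}) g i q =>
        xiI (indFn E q) s.1 s.2 e g i) Cv Λ k (a, A) ω =
      ENNReal.ofReal (∑ ω, p ω * Zk D Λ Cv (stepFn E (w ω)) k a A) := by
    rw [ENNReal.ofReal_sum_of_nonneg fun ω _ => mul_nonneg (hp ω) (hZn ω)]
    refine Finset.sum_congr rfl fun ω _ => ?_
    rw [NOI_Zk E hMmu hMeu hMzk hE Λ Cv hCv0 D hD w ω k a A, ENNReal.ofReal_mul (hp ω)]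
    simp
  rw [h2] at hrec
  have h3 := (ENNReal.ofReal_le_ofReal_iff (by positivity)).1 hrec
  simpa using h3

end

end Pool.UMD
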